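import Pool.Agent.helper20.VVO.Spec

/-!
# Row vvo:KEY (MP_069684_lc): the key lemma for the unconditional pruning
-/

set_option autoImplicit false

open Filter Topology

namespace Pool.Agent.VVO

open Pool.Agent.PB Pool.Agent.ISO Pool.Agent.ISA

theorem KEY_avg {α ι κ τ : Type} [Fintype α] [Fintype ι] [Fintype κ] [Fintype τ] (μ : α → ℝ) (wt : τ → ℝ)
    (f : α → ι → κ → τ → ℝ) (g : α → ℝ) (q C : ℝ) (hμ : ∀ e, 0 ≤ μ e) (hw : ∀ T, 0 ≤ wt T) (hw1 : ∑ T, wt T = 1)
    (hC : C = (Fintype.card ι : ℝ) * (Fintype.card κ : ℝ)) (hC0 : 0 < C)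
    (hg : ∀ e, g e * C ≤ ∑ a, ∑ A, ∑ T, wt T * f e a A T)
    (hf : ∀ a A T, ∑ e, μ e * f e a A T ≤ q) : ∑ e, μ e * g e ≤ q := by
  have h1 : (∑ e, μ e * g e) * C ≤ ∑ e, μ e * ∑ a, ∑ A, ∑ T, wt T * f e a A T := by
    rw [Finset.sum_mul]
    apply Finset.sum_le_sum
    intro e _
    rw [mul_assoc]
    exact mul_le_mul_of_nonneg_left (hg e) (hμ e)
  have h2 : ∑ e, μ e * ∑ a, ∑ A, ∑ T, wt T * f e a A T = ∑ a, ∑ A, ∑ T, wt T * ∑ e, μ e * f e a A T := by
    simp only [Finset.mul_sum]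
    rw [Finset.sum_comm]
    refine Finset.sum_congr rfl fun a _ => ?_
    rw [Finset.sum_comm]
    refine Finset.sum_congr rfl fun A _ => ?_
    rw [Finset.sum_comm]
    refine Finset.sum_congr rfl fun T _ => ?_
    refine Finset.sum_congr rfl fun e _ => ?_
    ring
  have h3 : ∑ a, ∑ A, ∑ T, wt T * ∑ e, μ e * f e a A T ≤ ∑ _a : ι, ∑ _A : κ, ∑ T, wt T * q := by
    refine Finset.sum_le_sum fun a _ => Finset.sum_le_sum fun A _ => Finset.sum_le_sum fun T _ => ?_
    exact mul_le_mul_of_nonneg_left (hf a A T) (hw T)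
  have h4 : ∑ _a : ι, ∑ _A : κ, ∑ T, wt T * q = q * C := by
    rw [← Finset.sum_mul, hw1, one_mul, Finset.sum_const, Finset.sum_const, Finset.card_univ, Finset.card_univ, hC,
      nsmul_eq_mul, nsmul_eq_mul]
    ring
  have h5 : (∑ e, μ e * g e) * C ≤ q * C := by
    rw [← h4]
    exact h1.trans (h2.le.trans h3)
  exact le_of_mul_le_mul_right h5 hC0

theorem KEY_num (H ε L q l : ℝ) (hH : 1 ≤ H) (hε : 0 < ε) (hε1 : ε < 1) (hL : 0 < L) (hq : q = (1 - ε) * H / L)
    (h1 : 8 * H / ε ≤ L) (h2 : 4 * l / ε ≤ L) (h3 : (1 - ε / 8) * ((1 - q) * H - ε / 8) ≤ q * (L + l)) : False := by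
  have hqL : q * L = (1 - ε) * H := by
    rw [hq]
    field_simp
  have h1' : 8 * H ≤ L * ε := by
    rwa [div_le_iff₀ hε] at h1
  have h2' : 4 * l ≤ L * ε := by
    rwa [div_le_iff₀ hε] at h2
  have hq0 : 0 ≤ q := by
    rw [hq]
    apply div_nonneg _ hL.le
    exact mul_nonneg (by linarith) (by linarith)
  -- `q ≤ ε / 8`
  have hq1 : q ≤ ε / 8 := by
    by_contra hc
    push Not at hc
    have e1 : ε / 8 * L < q * L := mul_lt_mul_of_pos_right hc hL
    rw [hqL] at e1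
    nlinarith
  have hql : q * l ≤ (1 - ε) * H * (ε / 4) := by
    have e1 : q * (4 * l) ≤ q * (L * ε) := mul_le_mul_of_nonneg_left h2' hq0
    have e2 : q * (L * ε) = (1 - ε) * H * ε := by
      rw [← mul_assoc, hqL]
    nlinarith
  have h4 : (1 - ε / 8) * ((1 - q) * H - ε / 8) ≤ (1 - ε) * H + (1 - ε) * H * (ε / 4) := by
    have e1 : q * (L + l) = q * L + q * l := by ring
    rw [e1, hqL] at h3
    linarith
  have h5 : (1 - ε / 4) * H ≤ (1 - q) * H - ε / 8 := by nlinarith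
  have h6 : (1 - ε / 8) * ((1 - ε / 4) * H) ≤ (1 - ε / 8) * ((1 - q) * H - ε / 8) :=
    mul_le_mul_of_nonneg_left h5 (by linarith)
  have h7 : (1 - ε / 8) * ((1 - ε / 4) * H) ≤ (1 - ε) * H + (1 - ε) * H * (ε / 4) := h6.trans h4
  have h8 : 0 < H * (3 * ε / 8 + ε ^ 2 * (9 / 32)) := by positivity
  nlinarith

theorem KEY_int {α : Type} [Fintype α] (μ : α → ℝ) (F : α → ℝ → ℝ) (lb : α → ℝ) (a q : ℝ) (ha : 0 < a) (ha1 : a ≤ 1)
    (hμ : ∀ e, 0 ≤ μ e)
    (hF : ∀ e, IntervalIntegrable (fun d => F e d / d) MeasureTheory.volume a 1 ∧ lb e ≤ ∫ d in a..1, F e d / d)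
    (hq : ∀ d, a ≤ d → d ≤ 1 → ∑ e, μ e * F e d ≤ q) : ∑ e, μ e * lb e ≤ q * Real.log (1 / a) := by
  have h1 : ∑ e, μ e * lb e ≤ ∑ e, μ e * ∫ d in a..1, F e d / d :=
    Finset.sum_le_sum fun e _ => mul_le_mul_of_nonneg_left (hF e).2 (hμ e)
  have hi : ∀ e ∈ (Finset.univ : Finset α), IntervalIntegrable (fun d => μ e * (F e d / d)) MeasureTheory.volume a 1 :=
    fun e _ => (hF e).1.const_mul _
  have h2 : ∑ e, μ e * ∫ d in a..1, F e d / d = ∫ d in a..1, ∑ e, μ e * (F e d / d) := by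
    rw [intervalIntegral.integral_finset_sum hi]
    exact Finset.sum_congr rfl fun e _ => (intervalIntegral.integral_const_mul _ _).symm
  have hsum : IntervalIntegrable (fun d => ∑ e, μ e * (F e d / d)) MeasureTheory.volume a 1 := by
    have h := IntervalIntegrable.sum Finset.univ hi
    have e1 : (∑ e, fun d => μ e * (F e d / d)) = fun d => ∑ e, μ e * (F e d / d) := by
      funext d
      rw [Finset.sum_apply]
    rwa [e1] at h
  have hone : IntervalIntegrable (fun d : ℝ => q * (1 / d)) MeasureTheory.volume a 1 := by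
    apply ContinuousOn.intervalIntegrable
    rw [Set.uIcc_of_le ha1]
    refine ContinuousOn.mul continuousOn_const (ContinuousOn.div continuousOn_const continuousOn_id ?_)
    intro x hx
    exact (lt_of_lt_of_le ha hx.1).ne'
  have h3 : ∫ d in a..1, ∑ e, μ e * (F e d / d) ≤ ∫ d in a..1, q * (1 / d) := by
    apply intervalIntegral.integral_mono_on ha1 hsum hone
    intro d hd
    have hd0 : 0 < d := lt_of_lt_of_le ha hd.1
    have e1 : ∑ e, μ e * (F e d / d) = (∑ e, μ e * F e d) * (1 / d) := by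
      rw [Finset.sum_mul]
      exact Finset.sum_congr rfl fun e _ => by ring
    rw [e1]
    exact mul_le_mul_of_nonneg_right (hq d hd.1 hd.2) (by positivity)
  rw [intervalIntegral.integral_const_mul, integral_one_div_of_pos ha one_pos] at h3
  exact h1.trans (h2.le.trans h3)

theorem KEY_ind_nonneg (P : Prop) : 0 ≤ ind P := by
  unfold ind
  split_ifs <;> norm_num

theorem KEY (hLEV : LEV_stmt) (hPOI : POI_stmt) (hGIN : GIN_stmt) (hTSM : TSM_stmt) : KEY_stmt := by
  classical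
  intro ε j hε hj
  have hH1 : (1 : ℝ) ≤ (harmonic j : ℝ) := by
    have h1 : (1 : ℚ) ≤ harmonic j := by
      unfold harmonic
      have h2 : (0 : ℕ) ∈ Finset.range j := Finset.mem_range.mpr (by omega)
      have h3 := Finset.single_le_sum (f := fun i : ℕ => ((↑(i + 1) : ℚ))⁻¹) (s := Finset.range j)
        (fun i _ => by positivity) h2
      simpa using h3
    exact_mod_cast h1
  by_cases hε1 : 1 ≤ ε
  · refine ⟨2, 0, fun w m α _ Kf μ hm hμ hμ1 hK => ?_⟩
    refine ⟨0, fun i => i.elim0, fun i => i.elim0, ∅, ?_, ?_⟩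
    · have : 2 ≤ m := hm
      rw [pow_zero]
      omega
    · have h0 : 0 ≤ Real.log m := Real.log_natCast_nonneg m
      have h1 : (1 - ε) * (harmonic j : ℝ) / Real.log m ≤ 0 := by
        apply div_nonpos_of_nonpos_of_nonneg _ h0
        apply mul_nonpos_of_nonpos_of_nonneg <;> linarith
      exact h1.trans (Finset.sum_nonneg fun e _ => mul_nonneg (hμ e) (KEY_ind_nonneg _))
  push Not at hε1
  have hδ : 0 < ε / 8 := by positivity
  have hδ1 : ε / 8 < 1 := by linarith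
  obtain ⟨lo, hi, hlo, hlo1, hhi, hP⟩ := hPOI j (ε / 8) hδ
  obtain ⟨κ0, r, b, hb, hb1, hhiκ, hκb, hL⟩ := hLEV j (ε / 8) lo hi hδ hδ1 hlo hlo1 hhi
  have hexp : ∃ M : ℕ, 3 ≤ M ∧ 1 / lo ≤ M ∧ lo / b ≤ M ∧
      Real.exp (8 * (harmonic j : ℝ) / ε + 4 * Real.log (1 / lo) / ε + 1) ≤ M := by
    obtain ⟨N1, hN1⟩ := exists_nat_ge (1 / lo)
    obtain ⟨N2, hN2⟩ := exists_nat_ge (lo / b)
    obtain ⟨N3, hN3⟩ := exists_nat_ge (Real.exp (8 * (harmonic j : ℝ) / ε + 4 * Real.log (1 / lo) / ε + 1))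
    refine ⟨N1 + N2 + N3 + 3, by omega, ?_, ?_, ?_⟩ <;> push_cast
    · linarith [Nat.cast_nonneg (α := ℝ) N2, Nat.cast_nonneg (α := ℝ) N3]
    · linarith [Nat.cast_nonneg (α := ℝ) N1, Nat.cast_nonneg (α := ℝ) N3]
    · linarith [Nat.cast_nonneg (α := ℝ) N1, Nat.cast_nonneg (α := ℝ) N2]
  obtain ⟨M, hM3, hMlo, hMb, hMe⟩ := hexp
  refine ⟨M, r, fun w m α _ Kf μ hm hμ hμ1 hK => ?_⟩
  by_contra hc
  push Not at hc
  have hm0 : (0 : ℝ) < m := by
    have : 0 < m := by omega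
    exact_mod_cast this
  have hM0 : (0 : ℝ) < M := by
    have : 0 < M := by omega
    exact_mod_cast this
  have hMm : (M : ℝ) ≤ m := by exact_mod_cast hm
  have hm1 : (1 : ℝ) ≤ m := by
    have : 1 ≤ m := by omega
    exact_mod_cast this
  have hlog : 8 * (harmonic j : ℝ) / ε + 4 * Real.log (1 / lo) / ε + 1 ≤ Real.log m := by
    rw [Real.le_log_iff_exp_le hm0]
    exact hMe.trans hMm
  have hl0 : 0 ≤ Real.log (1 / lo) := by
    apply Real.log_nonneg
    rw [le_div_iff₀ hlo]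
    linarith
  have hA1 : 0 ≤ 8 * (harmonic j : ℝ) / ε := by positivity
  have hA2 : 0 ≤ 4 * Real.log (1 / lo) / ε := by positivity
  have hLpos : 0 < Real.log m := by linarith
  set q : ℝ := (1 - ε) * (harmonic j : ℝ) / Real.log m with hq
  have ha : 0 < lo / m := by positivity
  have ha1 : lo / m ≤ 1 := by
    rw [div_le_one hm0]
    linarith
  have hab : lo / m ≤ b := by
    rw [div_le_iff₀ hm0]
    rw [div_le_iff₀ hb] at hMb
    nlinarith
  -- the inequality for every density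
  have hd : ∀ d, lo / m ≤ d → d ≤ 1 → ∑ e, μ e * GG (ε / 8) b lo hi κ0 j (Kf e).card d ≤ q := by
    intro d hd1 hd2
    have hd0 : 0 < d := lt_of_lt_of_le ha hd1
    obtain ⟨t, x, hx0, hx1, ht, hineq⟩ := hL w d hd0 hd2
    have ht2 : 2 ^ t ≤ M * m := by
      have e1 : (2 : ℝ) ^ t ≤ M * m := by
        have e2 : (2 : ℝ) ^ t ≤ 1 / d := by
          rw [le_div_iff₀ hd0]
          exact ht
        have e3 : 1 / d ≤ 1 / (lo / m) := one_div_le_one_div_of_le ha hd1
        have e4 : 1 / (lo / m) = 1 / lo * m := by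
          field_simp
        have e5 : 1 / lo * m ≤ M * m := mul_le_mul_of_nonneg_right hMlo hm0.le
        linarith
      exact_mod_cast e1
    have hwt0 : ∀ T : Finset (Fin r → Bool), 0 ≤ x ^ T.card * (1 - x) ^ (2 ^ r - T.card) :=
      fun T => mul_nonneg (pow_nonneg hx0 _) (pow_nonneg (by linarith) _)
    have hwt1 := (hTSM w r j ∅ x hx0 hx1).1
    have hC0 : (0 : ℝ) < (Fintype.card (Fin t → (Fin w → Bool) × Bool) : ℝ) * (Fintype.card (Fin r → Fin w → Bool) : ℝ) := by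
      have e1 : 0 < Fintype.card (Fin t → (Fin w → Bool) × Bool) := Fintype.card_pos
      have e2 : 0 < Fintype.card (Fin r → Fin w → Bool) := Fintype.card_pos
      have e3 : (0 : ℝ) < Fintype.card (Fin t → (Fin w → Bool) × Bool) := by exact_mod_cast e1
      have e4 : (0 : ℝ) < Fintype.card (Fin r → Fin w → Bool) := by exact_mod_cast e2
      exact mul_pos e3 e4
    exact KEY_avg μ (fun T : Finset (Fin r → Bool) => x ^ T.card * (1 - x) ^ (2 ^ r - T.card))
      (fun e (a : Fin t → (Fin w → Bool) × Bool) (A : Fin r → Fin w → Bool) (T : Finset (Fin r → Bool)) =>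
        ind (1 ≤ ((Kf e).filter fun y => asat a y ∧ lin A y ∈ T).card ∧ ((Kf e).filter fun y => asat a y ∧ lin A y ∈ T).card ≤ j))
      (fun e => GG (ε / 8) b lo hi κ0 j (Kf e).card d) q _ hμ hwt0 hwt1 rfl hC0 (fun e => hineq (Kf e) (hK e).1)
      (fun a A T => (hc t a A T ht2).le)
  have hI := KEY_int μ (fun e d => GG (ε / 8) b lo hi κ0 j (Kf e).card d)
    (fun e => (1 - ε / 8) * ((harmonic (min j (Kf e).card) : ℝ) - ε / 8)) (lo / m) q ha ha1 hμ
    (fun e => hGIN (ε / 8) b lo hi κ0 j (Kf e).card m hδ hδ1 hb hb1 hlo hlo1 hhi hhiκ hκb (hK e).1 (hK e).2 hab hP) hd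
  have hlg : Real.log (1 / (lo / m)) = Real.log m + Real.log (1 / lo) := by
    rw [← Real.log_mul hm0.ne' (by positivity)]
    congr 1
    field_simp
  rw [hlg] at hI
  -- few witnesses
  have h0 := hc 0 (fun i => i.elim0) (fun _ _ => false) Finset.univ (by
    rw [pow_zero]
    exact Nat.one_le_iff_ne_zero.mpr (Nat.mul_ne_zero (by omega) (by omega)))
  have h1 : ∑ e, μ e * ind ((Kf e).card ≤ j) ≤ q := by
    refine le_trans (le_of_eq ?_) h0.le
    refine Finset.sum_congr rfl fun e _ => ?_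
    have e1 : ((Kf e).filter fun y => asat (fun i : Fin 0 => (i.elim0 : (Fin w → Bool) × Bool)) y ∧
        lin (fun (_ : Fin r) (_ : Fin w) => false) y ∈ (Finset.univ : Finset (Fin r → Bool))) = Kf e := by
      apply Finset.filter_true_of_mem
      intro y _
      exact ⟨fun i => i.elim0, Finset.mem_univ _⟩
    rw [e1]
    congr 1
    unfold ind
    by_cases h : (Kf e).card ≤ j
    · rw [if_pos h, if_pos ⟨(hK e).1, h⟩]
    · rw [if_neg h, if_neg (fun h' => h h'.2)]
  have hmin : ∀ e, (harmonic j : ℝ) * (1 - ind ((Kf e).card ≤ j)) ≤ (harmonic (min j (Kf e).card) : ℝ) := by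
    intro e
    unfold ind
    by_cases h : (Kf e).card ≤ j
    · rw [if_pos h, sub_self, mul_zero]
      have : (0 : ℚ) ≤ harmonic (min j (Kf e).card) := by
        unfold harmonic
        exact Finset.sum_nonneg fun i _ => by positivity
      exact_mod_cast this
    · rw [if_neg h, sub_zero, mul_one, min_eq_left (by omega)]
  have h2 : (1 - q) * (harmonic j : ℝ) ≤ ∑ e, μ e * (harmonic (min j (Kf e).card) : ℝ) := by
    have e1 : ∑ e, μ e * ((harmonic j : ℝ) * (1 - ind ((Kf e).card ≤ j))) ≤ ∑ e, μ e * (harmonic (min j (Kf e).card) : ℝ) :=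
      Finset.sum_le_sum fun e _ => mul_le_mul_of_nonneg_left (hmin e) (hμ e)
    have e2 : ∑ e, μ e * ((harmonic j : ℝ) * (1 - ind ((Kf e).card ≤ j))) =
        (harmonic j : ℝ) * (∑ e, μ e - ∑ e, μ e * ind ((Kf e).card ≤ j)) := by
      rw [← Finset.sum_sub_distrib, Finset.mul_sum]
      exact Finset.sum_congr rfl fun e _ => by ring
    rw [e2, hμ1] at e1
    have e3 : (harmonic j : ℝ) * (1 - q) ≤ (harmonic j : ℝ) * (1 - ∑ e, μ e * ind ((Kf e).card ≤ j)) :=
      mul_le_mul_of_nonneg_left (by linarith) (by linarith)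
    linarith
  have h3 : ∑ e, μ e * ((1 - ε / 8) * ((harmonic (min j (Kf e).card) : ℝ) - ε / 8)) =
      (1 - ε / 8) * (∑ e, μ e * (harmonic (min j (Kf e).card) : ℝ) - ε / 8) := by
    have e1 : (ε / 8 : ℝ) = ∑ e, μ e * (ε / 8) := by
      rw [← Finset.sum_mul, hμ1, one_mul]
    have e2 : (∑ e, μ e * (harmonic (min j (Kf e).card) : ℝ) - ∑ e, μ e * (ε / 8)) =
        ∑ e, μ e * ((harmonic (min j (Kf e).card) : ℝ) - ε / 8) := by
      rw [← Finset.sum_sub_distrib]
      exact Finset.sum_congr rfl fun e _ => by ring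
    rw [← e1] at e2
    rw [e2, Finset.mul_sum]
    exact Finset.sum_congr rfl fun e _ => by ring
  rw [h3] at hI
  have h4 : (1 - ε / 8) * ((1 - q) * (harmonic j : ℝ) - ε / 8) ≤ q * (Real.log m + Real.log (1 / lo)) := by
    refine le_trans ?_ hI
    exact mul_le_mul_of_nonneg_left (by linarith) (by linarith)
  exact KEY_num (harmonic j : ℝ) ε (Real.log m) q (Real.log (1 / lo)) hH1 hε hε1 hLpos hq (by linarith) (by linarith) h4

end Pool.Agent.VVO
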