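import Pool.Agent.helper20.VVO.Spec

/-!
# Row vvo:SVS (MP_069684_lc): size of the subset verifier
-/

set_option autoImplicit false

open Filter Topology

namespace Pool.Agent.VVO

open Pool.Agent.PB Pool.Agent.ISO Pool.Agent.ISA

theorem SVS_copy (hSEL : ISO.SEL_stmt) {n w k N s : ℕ} (f : BF (n + w)) (h : k * n ≤ N) (e : Fin k) (hf : Size std f s) :
    Size std (fun Z : Fin (N + (k + k * w)) → Bool =>
      f (Fin.append (fun b : Fin n => Z (Fin.castAdd (k + k * w) (Fin.castLE h (finProdFinEquiv (e, b)))))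
        (fun b : Fin w => Z (Fin.natAdd N (Fin.natAdd k (finProdFinEquiv (e, b))))))) (s + (n + w)) := by
  refine hSEL (N + (k + k * w)) (n + w) s f (fun i Z =>
    Fin.append (fun b : Fin n => Z (Fin.castAdd (k + k * w) (Fin.castLE h (finProdFinEquiv (e, b)))))
        (fun b : Fin w => Z (Fin.natAdd N (Fin.natAdd k (finProdFinEquiv (e, b))))) i) hf ?_
  intro i
  refine Or.inr ?_
  refine Fin.addCases (fun a => ?_) (fun b => ?_) i
  · refine ⟨Fin.castAdd (k + k * w) (Fin.castLE h (finProdFinEquiv (e, a))), ?_⟩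
    funext Z
    exact Fin.append_left _ _ a
  · refine ⟨Fin.natAdd N (Fin.natAdd k (finProdFinEquiv (e, b))), ?_⟩
    funext Z
    exact Fin.append_right _ _ b

theorem SVS_num (n w k N s Q : ℕ) (hQ : n + w + k + N + s + 2 ≤ Q) :
    (k * 0 + 10 * (k + 1) ^ 2) + (k * ((0 + 1 + (w * 2 + 1) + 1) + (0 + (s + (n + w)) + 1) + 1 + 1) + 1) + 1 ≤ Q ^ 8 := by
  have h2 : 2 ≤ Q := by omega
  have hk : k + 1 ≤ Q := by omega
  have hk' : k ≤ Q := by omega
  have ht : (0 + 1 + (w * 2 + 1) + 1) + (0 + (s + (n + w)) + 1) + 1 + 1 ≤ 3 * Q := by omega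
  have h1 : k * ((0 + 1 + (w * 2 + 1) + 1) + (0 + (s + (n + w)) + 1) + 1 + 1) ≤ Q * (3 * Q) := Nat.mul_le_mul hk' ht
  have h3 : (k + 1) ^ 2 ≤ Q ^ 2 := Nat.pow_le_pow_left hk 2
  have h4 : Q ^ 8 = Q ^ 2 * Q ^ 6 := by ring
  have h5 : 64 ≤ Q ^ 6 := by
    calc 64 = 2 ^ 6 := by norm_num
      _ ≤ Q ^ 6 := Nat.pow_le_pow_left h2 6
  have h6 : Q ^ 2 * 64 ≤ Q ^ 2 * Q ^ 6 := Nat.mul_le_mul_left _ h5
  have h7 : 4 ≤ Q ^ 2 := by nlinarith
  have h8 : Q * (3 * Q) = 3 * Q ^ 2 := by ring
  rw [h4]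
  omega

theorem SVS (hCIR : ISO.CIR_stmt) (hCNT : ISO.CNT_stmt) (hSEL : ISO.SEL_stmt) : SVS_stmt := by
  obtain ⟨cvar, ccon, cmono, cnot, cao, call, cex⟩ := hCIR
  intro n w k N l s Q f h hf hQ
  -- the number of the ones
  have hF : Size std (fun Z : Fin (N + (k + k * w)) → Bool =>
      decide ((Finset.univ.filter fun i : Fin k => Z (Fin.natAdd N (Fin.castAdd (k * w) i)) = true).card = l))
      (k * 0 + 10 * (k + 1) ^ 2) := by
    have h1 := hCNT (Fin k) (N + (k + k * w)) 0 (fun i Z => Z (Fin.natAdd N (Fin.castAdd (k * w) i)))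
      (fun Z : Fin (N + (k + k * w)) → Bool =>
        decide ((Finset.univ.filter fun i : Fin k => Z (Fin.natAdd N (Fin.castAdd (k * w) i)) = true).card = l))
      (fun c => c = l) (fun i => cvar _ _) (fun Z => decide_eq_true_iff)
    rw [Fintype.card_fin] at h1
    exact h1
  -- the zero block
  have hA : ∀ i : Fin k, Size std (fun Z : Fin (N + (k + k * w)) → Bool =>
      decide (∀ b : Fin w, Z (Fin.natAdd N (Fin.natAdd k (finProdFinEquiv (i, b)))) = false)) (w * 2 + 1) := by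
    intro i
    have h1 := call (Fin w) (N + (k + k * w)) 1
      (fun b Z => !(Z (Fin.natAdd N (Fin.natAdd k (finProdFinEquiv (i, b))))))
      (fun Z : Fin (N + (k + k * w)) → Bool =>
        decide (∀ b : Fin w, Z (Fin.natAdd N (Fin.natAdd k (finProdFinEquiv (i, b)))) = false)) ?_ ?_
    · rw [Fintype.card_fin] at h1
      exact h1
    · intro b
      exact cnot _ 0 _ (cvar _ _)
    · intro Z
      rw [decide_eq_true_eq]
      refine forall_congr' fun b => ?_
      simp
  -- one block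
  have hB : ∀ i : Fin k, Size std (fun Z : Fin (N + (k + k * w)) → Bool =>
      ((!(Z (Fin.natAdd N (Fin.castAdd (k * w) i)))) &&
        decide (∀ b : Fin w, Z (Fin.natAdd N (Fin.natAdd k (finProdFinEquiv (i, b)))) = false)) ||
      ((Z (Fin.natAdd N (Fin.castAdd (k * w) i))) &&
        f (Fin.append (fun b : Fin n => Z (Fin.castAdd (k + k * w) (Fin.castLE h (finProdFinEquiv (i, b)))))
          (fun b : Fin w => Z (Fin.natAdd N (Fin.natAdd k (finProdFinEquiv (i, b))))))))
      ((0 + 1 + (w * 2 + 1) + 1) + (0 + (s + (n + w)) + 1) + 1) := by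
    intro i
    exact (cao _ _ _ _ _ (cao _ _ _ _ _ (cnot _ 0 _ (cvar _ _)) (hA i)).1
      (cao _ _ _ _ _ (cvar _ _) (SVS_copy hSEL f h i hf)).1).2
  -- all blocks
  have hC : Size std (fun Z : Fin (N + (k + k * w)) → Bool =>
      decide (∀ i : Fin k, (Z (Fin.natAdd N (Fin.castAdd (k * w) i)) = false ∧
        ∀ b : Fin w, Z (Fin.natAdd N (Fin.natAdd k (finProdFinEquiv (i, b)))) = false) ∨
      (Z (Fin.natAdd N (Fin.castAdd (k * w) i)) = true ∧
        f (Fin.append (fun b : Fin n => Z (Fin.castAdd (k + k * w) (Fin.castLE h (finProdFinEquiv (i, b)))))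
          (fun b : Fin w => Z (Fin.natAdd N (Fin.natAdd k (finProdFinEquiv (i, b)))))) = true)))
      (k * ((0 + 1 + (w * 2 + 1) + 1) + (0 + (s + (n + w)) + 1) + 1 + 1) + 1) := by
    have h1 := call (Fin k) (N + (k + k * w)) _ _
      (fun Z : Fin (N + (k + k * w)) → Bool =>
        decide (∀ i : Fin k, (Z (Fin.natAdd N (Fin.castAdd (k * w) i)) = false ∧
          ∀ b : Fin w, Z (Fin.natAdd N (Fin.natAdd k (finProdFinEquiv (i, b)))) = false) ∨
        (Z (Fin.natAdd N (Fin.castAdd (k * w) i)) = true ∧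
          f (Fin.append (fun b : Fin n => Z (Fin.castAdd (k + k * w) (Fin.castLE h (finProdFinEquiv (i, b)))))
            (fun b : Fin w => Z (Fin.natAdd N (Fin.natAdd k (finProdFinEquiv (i, b)))))) = true))) hB ?_
    · rw [Fintype.card_fin] at h1
      exact h1
    · intro Z
      rw [decide_eq_true_eq]
      refine forall_congr' fun i => ?_
      rw [Bool.or_eq_true, Bool.and_eq_true, Bool.and_eq_true, decide_eq_true_eq, Bool.not_eq_true']
  have hD := (cao _ _ _ _ _ hF hC).1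
  have hE : subV f N l h = fun Z : Fin (N + (k + k * w)) → Bool =>
      decide ((Finset.univ.filter fun i : Fin k => Z (Fin.natAdd N (Fin.castAdd (k * w) i)) = true).card = l) &&
      decide (∀ i : Fin k, (Z (Fin.natAdd N (Fin.castAdd (k * w) i)) = false ∧
        ∀ b : Fin w, Z (Fin.natAdd N (Fin.natAdd k (finProdFinEquiv (i, b)))) = false) ∨
      (Z (Fin.natAdd N (Fin.castAdd (k * w) i)) = true ∧
        f (Fin.append (fun b : Fin n => Z (Fin.castAdd (k + k * w) (Fin.castLE h (finProdFinEquiv (i, b)))))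
          (fun b : Fin w => Z (Fin.natAdd N (Fin.natAdd k (finProdFinEquiv (i, b)))))) = true)) := by
    funext Z
    unfold subV
    rw [Bool.decide_and]
  rw [hE]
  exact cmono _ _ _ _ hD (SVS_num n w k N s Q hQ)

end Pool.Agent.VVO
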